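import Pool.Agent.Helper17.SA.St4

/-!
# Module C63 of project SA

The counts for `A_6`, `p = 3`. For `y` let `k y` be the number of elements of
`y {0,1,2} ∩ {0,1,2}`; if `y` is bad then `k y` is `0` or `3`, and `k` is constant on the double
cosets of `P0`. With `A = t {0,1,2}`, `B = s⁻¹ {0,1,2}`, `h = g⁻¹` we have to count the pairs
`(i, j)` such that `v_j A` and `h v_i⁻¹ B` meet in `k` elements, and for fixed `i` the number of the
`j` depends only on the orbits of `A` and `h v_i⁻¹ B`. For a regular `g` every type is hit by at most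
`4` of the `8` sets `h v_i⁻¹ B` (checked for all permutations `h`, coded as numbers).
-/

set_option autoImplicit false

namespace Pool.Agent.Helper47.SA

open Equiv Finset Pool.Agent.Helper17.SA

open scoped Pointwise

/-- The code of a function. -/
def code (h : Fin 6 → Fin 6) : ℕ :=
  (h 0 : ℕ) + 8 * ((h 1 : ℕ) + 8 * ((h 2 : ℕ) + 8 * ((h 3 : ℕ) + 8 * ((h 4 : ℕ) + 8 * (h 5 : ℕ)))))

/-- digit -/
def dg (H x : ℕ) : ℕ := H / 8 ^ x % 8

/-- the table of the types -/
def tn (m : ℕ) : ℕ := 1496949474656515537450832225462511974104158030528512 / 8 ^ m % 8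

/-- the type of an image -/
def it (H a b c : ℕ) : ℕ := tn (2 ^ dg H a + 2 ^ dg H b + 2 ^ dg H c)

/-- no type occurs three times -/
def ok4 (t1 t2 t3 t4 : ℕ) : Bool :=
  Nat.beq (Nat.land (8 ^ t1 + 8 ^ t2 + 8 ^ t3 + 8 ^ t4 + 4681) 18724) 0

/-- no type occurs three times in one of the five orbits -/
def c2 (H : ℕ) : Bool :=
  ok4 (it H 1 2 3) (it H 0 1 3) (it H 0 2 3) (it H 0 1 2) &&
  ok4 (it H 2 3 5) (it H 0 1 4) (it H 0 1 5) (it H 2 3 4) &&
  ok4 (it H 1 2 5) (it H 0 2 4) (it H 1 3 4) (it H 0 3 5) &&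
  ok4 (it H 0 3 4) (it H 1 3 5) (it H 0 2 5) (it H 1 2 4) &&
  ok4 (it H 0 4 5) (it H 2 4 5) (it H 1 4 5) (it H 3 4 5)

/-- the conjugate of `a` is `b` -/
def e1 (H a b : ℕ) : Bool :=
  Nat.beq (dg H (dg a 0)) (dg b (dg H 0)) && Nat.beq (dg H (dg a 1)) (dg b (dg H 1)) &&
  Nat.beq (dg H (dg a 2)) (dg b (dg H 2)) && Nat.beq (dg H (dg a 3)) (dg b (dg H 3)) &&
  Nat.beq (dg H (dg a 4)) (dg b (dg H 4)) && Nat.beq (dg H (dg a 5)) (dg b (dg H 5))

/-- the conjugate of `a` is an involution of `V0` -/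
def e2 (H a : ℕ) : Bool :=
  e1 H a 152776 || e1 H a 153217 || e1 H a 181441 || e1 H a 180762 || e1 H a 180307

/-- the conjugate of an involution is an involution of `V0` -/
def c1 (H : ℕ) : Bool := e2 H 152776 || e2 H 153217 || e2 H 181441 || e2 H 180762 || e2 H 180307

set_option maxRecDepth 100000 in
theorem K6 : ∀ h : Perm (Fin 6), (c2 (code h) || c1 (code h)) = true := by
  decide +kernel

/-- the eight elements of the Sylow 2-subgroup -/
def vv : Fin 8 → Fin 6 → Fin 6 :=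
  ![![0, 1, 2, 3, 4, 5], ![0, 1, 3, 2, 5, 4], ![1, 0, 2, 3, 5, 4], ![1, 0, 3, 2, 4, 5],
    ![2, 3, 0, 1, 4, 5], ![2, 3, 1, 0, 5, 4], ![3, 2, 0, 1, 5, 4], ![3, 2, 1, 0, 4, 5]]

/-- the inverses -/
def iv : Fin 8 → Fin 8 := ![0, 1, 2, 3, 4, 6, 5, 7]

/-- the nine elements of the Sylow 3-subgroup -/
def pp : Fin 9 → Fin 6 → Fin 6 :=
  ![![0, 1, 2, 3, 4, 5], ![0, 1, 2, 4, 5, 3], ![0, 1, 2, 5, 3, 4],
    ![1, 2, 0, 3, 4, 5], ![1, 2, 0, 4, 5, 3], ![1, 2, 0, 5, 3, 4],
    ![2, 0, 1, 3, 4, 5], ![2, 0, 1, 4, 5, 3], ![2, 0, 1, 5, 3, 4]]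

/-- the inverses -/
def ip : Fin 9 → Fin 9 := ![0, 2, 1, 6, 8, 7, 3, 5, 4]

/-- the type of a set -/
def ty (B : Finset (Fin 6)) : ℕ := tn (∑ x ∈ B, 2 ^ (x : ℕ))

/-- the five orbits -/
def orb : Fin 5 → Fin 4 → Finset (Fin 6) :=
  ![![{1, 2, 3}, {0, 1, 3}, {0, 2, 3}, {0, 1, 2}], ![{2, 3, 5}, {0, 1, 4}, {0, 1, 5}, {2, 3, 4}],
    ![{1, 2, 5}, {0, 2, 4}, {1, 3, 4}, {0, 3, 5}], ![{0, 3, 4}, {1, 3, 5}, {0, 2, 5}, {1, 2, 4}],
    ![{0, 4, 5}, {2, 4, 5}, {1, 4, 5}, {3, 4, 5}]]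

/-- the sets with three elements -/
abbrev T3 : Finset (Finset (Fin 6)) := powersetCard 3 univ

theorem dg_code (h : Fin 6 → Fin 6) (x : Fin 6) : dg (code h) x = (h x : ℕ) := by
  have h0 := (h 0).2
  have h1 := (h 1).2
  have h2 := (h 2).2
  have h3 := (h 3).2
  have h4 := (h 4).2
  have h5 := (h 5).2
  unfold dg code
  fin_cases x <;> simp <;> omega

theorem dg_code' (f : Fin 6 → Fin 6) (x : ℕ) (hx : x < 6) : dg (code f) x = (f ⟨x, hx⟩ : ℕ) :=
  dg_code f ⟨x, hx⟩

theorem it_eq (h : Perm (Fin 6)) (a b c : ℕ) (ha : a < 6) (hb : b < 6) (hc : c < 6)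
    (hab : a ≠ b) (hac : a ≠ c) (hbc : b ≠ c) :
    it (code h) a b c = ty (({⟨a, ha⟩, ⟨b, hb⟩, ⟨c, hc⟩} : Finset (Fin 6)).image h) := by
  unfold it ty
  rw [dg_code' _ a ha, dg_code' _ b hb, dg_code' _ c hc, sum_image (fun x _ y _ hxy => h.injective hxy)]
  congr 1
  rw [sum_insert (by simp [hab, hac]), sum_insert (by simp [hbc]), sum_singleton, add_assoc]

theorem ty_lt : ∀ B ∈ T3, ty B < 5 := by
  decide +kernel

theorem ok4_spec : ∀ t1 t2 t3 t4 τ : Fin 5, ok4 t1 t2 t3 t4 = true →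
    (if t1 = τ then 1 else 0) + (if t2 = τ then 1 else 0) + (if t3 = τ then 1 else 0) +
      (if t4 = τ then 1 else 0) ≤ 2 := by
  decide +kernel

theorem orb_spec : ∀ B ∈ T3, ∃ o : Fin 5, (∀ q : Fin 4, #{i : Fin 8 | B.image (vv (iv i)) = orb o q} = 2) ∧
    ∀ i, ∃ q, B.image (vv (iv i)) = orb o q := by
  decide +kernel

/-- exceptional type for one common element -/
def b1 (τ : ℕ) : ℕ := if τ = 2 then 3 else if τ = 3 then 2 else τ

/-- exceptional type for two common elements -/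
def b2 (τ : ℕ) : ℕ := if τ = 0 then 4 else if τ = 4 then 0 else τ

theorem G_spec : ∀ A ∈ T3, ∀ C ∈ T3,
    (#{j : Fin 8 | #(A.image (vv j) ∩ C) = 0 ∨ #(A.image (vv j) ∩ C) = 3} ≤
      if ty A = 1 then (if ty C = 1 then 4 else 0) else 2) ∧
    ((if ty A = 1 then 2 else (if ty C = b1 (ty A) then 0 else 4)) ≤
      #{j : Fin 8 | #(A.image (vv j) ∩ C) = 1}) ∧
    ((if ty A = 1 then 2 else (if ty C = b2 (ty A) then 0 else 4)) ≤
      #{j : Fin 8 | #(A.image (vv j) ∩ C) = 2}) := by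
  decide +kernel

theorem mem_T3 {B : Finset (Fin 6)} : B ∈ T3 ↔ #B = 3 := by
  simp [T3, mem_powersetCard]

theorem c2_spec (h : Perm (Fin 6)) (hc : c2 (code h) = true) (o : Fin 5) (τ : ℕ) (hτ : τ < 5) :
    #{q : Fin 4 | ty ((orb o q).image h) = τ} ≤ 2 := by
  have hT : ∀ (o : Fin 5) (q : Fin 4), ty ((orb o q).image h) < 5 := by
    intro o q
    apply ty_lt
    rw [mem_T3, card_image_of_injective _ h.injective]
    revert o q
    decide
  have main : ∀ o : Fin 5, ok4 (ty ((orb o 0).image h)) (ty ((orb o 1).image h))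
      (ty ((orb o 2).image h)) (ty ((orb o 3).image h)) = true := by
    unfold c2 at hc
    simp only [Bool.and_eq_true] at hc
    obtain ⟨⟨⟨⟨h0, h1⟩, h2⟩, h3⟩, h4⟩ := hc
    rw [it_eq h, it_eq h, it_eq h, it_eq h] at h0 h1 h2 h3 h4
    rotate_left
    all_goals try norm_num
    intro o
    fin_cases o
    exacts [h0, h1, h2, h3, h4]
  rw [card_filter, Fin.sum_univ_four]
  have := ok4_spec ⟨_, hT o 0⟩ ⟨_, hT o 1⟩ ⟨_, hT o 2⟩ ⟨_, hT o 3⟩ ⟨τ, hτ⟩ (main o)
  simpa only [Fin.mk.injEq] using this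

theorem cnt_le (h : Perm (Fin 6)) (hc : c2 (code h) = true) (B : Finset (Fin 6)) (hB : B ∈ T3)
    (τ : ℕ) (hτ : τ < 5) : #{i : Fin 8 | ty ((B.image (vv (iv i))).image h) = τ} ≤ 4 := by
  obtain ⟨o, ho1, ho2⟩ := orb_spec B hB
  have hsub : ({i : Fin 8 | ty ((B.image (vv (iv i))).image h) = τ} : Finset (Fin 8)) ⊆
      ({q : Fin 4 | ty ((orb o q).image h) = τ} : Finset (Fin 4)).biUnion
        fun q => {i : Fin 8 | B.image (vv (iv i)) = orb o q} := by
    intro i hi
    obtain ⟨q, hq⟩ := ho2 i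
    rw [mem_filter] at hi
    rw [mem_biUnion]
    refine ⟨q, ?_, ?_⟩
    · rw [mem_filter, ← hq]
      exact ⟨mem_univ _, hi.2⟩
    · rw [mem_filter]
      exact ⟨mem_univ _, hq⟩
  calc _ ≤ _ := card_le_card hsub
    _ ≤ _ := card_biUnion_le
    _ = ∑ q ∈ ({q : Fin 4 | ty ((orb o q).image h) = τ} : Finset (Fin 4)), 2 :=
        sum_congr rfl fun q _ => ho1 q
    _ ≤ 4 := by
        rw [sum_const, smul_eq_mul]
        have := c2_spec h hc o τ hτ
        omega

theorem e1_spec (h : Perm (Fin 6)) (i j : Fin 8) (he : e1 (code h) (code (vv i)) (code (vv j)) = true) :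
    ∀ x, h (vv i x) = vv j (h x) := by
  unfold e1 at he
  simp only [Bool.and_eq_true] at he
  obtain ⟨⟨⟨⟨⟨h0, h1⟩, h2⟩, h3⟩, h4⟩, h5⟩ := he
  rw [dg_code' (vv i) _ (by norm_num), dg_code, dg_code' h _ (by norm_num), dg_code]
    at h0 h1 h2 h3 h4 h5
  intro x
  fin_cases x
  exacts [Fin.ext (Nat.eq_of_beq_eq_true h0), Fin.ext (Nat.eq_of_beq_eq_true h1),
    Fin.ext (Nat.eq_of_beq_eq_true h2), Fin.ext (Nat.eq_of_beq_eq_true h3),
    Fin.ext (Nat.eq_of_beq_eq_true h4), Fin.ext (Nat.eq_of_beq_eq_true h5)]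

theorem c1_spec (h : Perm (Fin 6)) (hc : c1 (code h) = true) :
    ∃ i j : Fin 8, i ≠ 0 ∧ ∀ x, h (vv i x) = vv j (h x) := by
  have k1 : (152776 : ℕ) = code (vv 1) := by decide
  have k2 : (153217 : ℕ) = code (vv 2) := by decide
  have k3 : (181441 : ℕ) = code (vv 3) := by decide
  have k4 : (180762 : ℕ) = code (vv 4) := by decide
  have k7 : (180307 : ℕ) = code (vv 7) := by decide
  unfold c1 e2 at hc
  rw [k1, k2, k3, k4, k7] at hc
  simp only [Bool.or_eq_true] at hc
  rcases hc with ((((hc | hc) | hc) | hc) | hc)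
  · rcases hc with ((((hc | hc) | hc) | hc) | hc)
    all_goals exact ⟨1, _, by decide, e1_spec h _ _ hc⟩
  · rcases hc with ((((hc | hc) | hc) | hc) | hc)
    all_goals exact ⟨2, _, by decide, e1_spec h _ _ hc⟩
  · rcases hc with ((((hc | hc) | hc) | hc) | hc)
    all_goals exact ⟨3, _, by decide, e1_spec h _ _ hc⟩
  · rcases hc with ((((hc | hc) | hc) | hc) | hc)
    all_goals exact ⟨4, _, by decide, e1_spec h _ _ hc⟩
  · rcases hc with ((((hc | hc) | hc) | hc) | hc)
    all_goals exact ⟨7, _, by decide, e1_spec h _ _ hc⟩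

theorem card_pairs (P : Fin 8 → Fin 8 → Prop) [∀ i j, Decidable (P i j)] :
    #{p : Fin 8 × Fin 8 | P p.1 p.2} = ∑ i : Fin 8, #{j : Fin 8 | P i j} := by
  rw [card_filter, Fintype.sum_prod_type]
  exact sum_congr rfl fun i _ => (card_filter _ _).symm

/-- The counts of pairs. -/
theorem key (h : Perm (Fin 6)) (hr : ∀ i j : Fin 8, (∀ x, h (vv i x) = vv j (h x)) → i = 0)
    (A B : Finset (Fin 6)) (hA : A ∈ T3) (hB : B ∈ T3) :
    #{p : Fin 8 × Fin 8 | #(A.image (vv p.2) ∩ (B.image (vv (iv p.1))).image h) = 0 ∨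
      #(A.image (vv p.2) ∩ (B.image (vv (iv p.1))).image h) = 3} ≤ 16 ∧
    16 ≤ #{p : Fin 8 × Fin 8 | #(A.image (vv p.2) ∩ (B.image (vv (iv p.1))).image h) = 1} ∧
    16 ≤ #{p : Fin 8 × Fin 8 | #(A.image (vv p.2) ∩ (B.image (vv (iv p.1))).image h) = 2} := by
  have hc : c2 (code h) = true := by
    have := K6 h
    rw [Bool.or_eq_true] at this
    rcases this with h1 | h1
    · exact h1
    · obtain ⟨i, j, hi, hij⟩ := c1_spec h h1
      exact absurd (hr i j hij) hi
  have hC : ∀ i : Fin 8, (B.image (vv (iv i))).image h ∈ T3 := by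
    intro i
    rw [mem_T3, card_image_of_injective _ h.injective, card_image_of_injective _ ?_, mem_T3.1 hB]
    generalize iv i = k
    revert k
    decide
  have hG := fun i => G_spec A hA _ (hC i)
  have hcnt := cnt_le h hc B hB
  rw [card_pairs fun i j => #(A.image (vv j) ∩ (B.image (vv (iv i))).image h) = 0 ∨
      #(A.image (vv j) ∩ (B.image (vv (iv i))).image h) = 3,
    card_pairs fun i j => #(A.image (vv j) ∩ (B.image (vv (iv i))).image h) = 1,
    card_pairs fun i j => #(A.image (vv j) ∩ (B.image (vv (iv i))).image h) = 2]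
  have hb : ∀ b : ℕ, b < 5 → 16 ≤ ∑ i : Fin 8,
      (if ty ((B.image (vv (iv i))).image h) = b then 0 else 4) := by
    intro b hb
    have h1 := hcnt b hb
    rw [card_filter] at h1
    have h2 : ∑ i : Fin 8, (if ty ((B.image (vv (iv i))).image h) = b then 0 else 4) +
        4 * ∑ i : Fin 8, (if ty ((B.image (vv (iv i))).image h) = b then 1 else 0) = 32 := by
      rw [mul_sum, ← sum_add_distrib]
      rw [sum_congr rfl (g := fun _ => 4)]
      · simp
      · intro i _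
        split_ifs <;> rfl
    omega
  have hA5 := ty_lt A hA
  refine ⟨?_, ?_, ?_⟩
  · refine (sum_le_sum fun i _ => (hG i).1).trans ?_
    by_cases h1 : ty A = 1
    · simp only [h1, if_true]
      have h2 := hcnt 1 (by norm_num)
      rw [card_filter] at h2
      have h3 : ∑ i : Fin 8, (if ty ((B.image (vv (iv i))).image h) = 1 then 4 else 0) =
          4 * ∑ i : Fin 8, (if ty ((B.image (vv (iv i))).image h) = 1 then 1 else 0) := by
        rw [mul_sum]
        exact sum_congr rfl fun i _ => by split_ifs <;> rfl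
      rw [h3]
      omega
    · simp [h1]
  · refine le_trans ?_ (sum_le_sum fun i _ => (hG i).2.1)
    by_cases h1 : ty A = 1
    · simp [h1]
    · simp only [h1, if_false]
      apply hb
      unfold b1
      split_ifs <;> omega
  · refine le_trans ?_ (sum_le_sum fun i _ => (hG i).2.2)
    by_cases h1 : ty A = 1
    · simp [h1]
    · simp only [h1, if_false]
      apply hb
      unfold b2
      split_ifs <;> omega

/-! ### The Sylow subgroups -/

/-- the alternating group -/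
abbrev S6 : Type := alternatingGroup (Fin 6)

theorem mkSylow (p r n : ℕ) [Fact p.Prime] (w : Fin n → S6) (hn : n = p ^ r)
    (hinj : Function.Injective w) (h1 : ∃ i, w i = 1) (hm : ∀ i j, ∃ k, w i * w j = w k)
    (hi : ∀ i, ∃ k, w k * w i = 1) (m : ℕ) (hnm : n * m = 360) (hpm : ¬ p ∣ m) :
    ∃ P : Sylow p S6, ∀ y, y ∈ P ↔ ∃ i, w i = y := by
  let H : Subgroup S6 :=
    { carrier := Set.range w
      mul_mem' := by
        rintro _ _ ⟨i, rfl⟩ ⟨j, rfl⟩
        obtain ⟨k, hk⟩ := hm i j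
        exact ⟨k, hk.symm⟩
      one_mem' := by
        obtain ⟨i, h⟩ := h1
        exact ⟨i, h⟩
      inv_mem' := by
        rintro _ ⟨i, rfl⟩
        obtain ⟨k, hk⟩ := hi i
        exact ⟨k, eq_inv_of_mul_eq_one_left hk⟩ }
  have hcard : Nat.card H = n := by
    have : Nat.card H = Nat.card (Set.range w) := rfl
    rw [this, Nat.card_congr (Equiv.ofInjective w hinj).symm, Nat.card_fin]
  have hS : Nat.card S6 = 360 := by
    rw [nat_card_alternatingGroup, Nat.card_fin]
    rfl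
  have hp : IsPGroup p H := IsPGroup.of_card (hcard.trans hn)
  have hidx : ¬ p ∣ H.index := by
    have h2 := H.card_mul_index
    rw [hcard, hS, ← hnm] at h2
    have hn0 : 0 < n := by
      rcases Nat.eq_zero_or_pos n with h | h
      · rw [h] at hnm
        omega
      · exact h
    rwa [Nat.eq_of_mul_eq_mul_left hn0 h2]
  exact ⟨hp.toSylow hidx, fun y => Iff.rfl⟩

theorem conjSylow {G : Type} [Group G] [Finite G] (p : ℕ) [Fact p.Prime] (P0 P : Sylow p G) :
    ∃ u : G, ∀ y, y ∈ P ↔ u * y * u⁻¹ ∈ P0 := by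
  obtain ⟨u, hu⟩ := MulAction.exists_smul_eq G P P0
  refine ⟨u, fun y => ?_⟩
  rw [← hu, Sylow.smul_def]
  change _ ↔ u * y * u⁻¹ ∈ MulAut.conj u • (P : Subgroup G)
  constructor
  · intro hy
    have : (MulAut.conj u) • y ∈ (MulAut.conj u) • (P : Subgroup G) :=
      Subgroup.smul_mem_pointwise_smul _ _ _ hy
    simpa using this
  · intro hy
    have h2 : (MulAut.conj u) • y ∈ (MulAut.conj u) • (P : Subgroup G) := by simpa using hy
    exact (Subgroup.smul_mem_pointwise_smul_iff).1 h2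

theorem iv1 : ∀ i x, vv (iv i) (vv i x) = x := by decide
theorem iv2 : ∀ i x, vv i (vv (iv i) x) = x := by decide
theorem ip1 : ∀ i x, pp (ip i) (pp i x) = x := by decide
theorem ip2 : ∀ i x, pp i (pp (ip i) x) = x := by decide

/-- the permutations -/
def vp (i : Fin 8) : Perm (Fin 6) := ⟨vv i, vv (iv i), iv1 i, iv2 i⟩

/-- the permutations -/
def pq (i : Fin 9) : Perm (Fin 6) := ⟨pp i, pp (ip i), ip1 i, ip2 i⟩

theorem vp_sign : ∀ i, Perm.sign (vp i) = 1 := by decide +kernel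
theorem pq_sign : ∀ i, Perm.sign (pq i) = 1 := by decide +kernel

/-- the elements -/
def v (i : Fin 8) : S6 := ⟨vp i, Perm.mem_alternatingGroup.2 (vp_sign i)⟩

/-- the elements -/
def q (i : Fin 9) : S6 := ⟨pq i, Perm.mem_alternatingGroup.2 (pq_sign i)⟩

theorem ext_S6 {a b : S6} (h : ∀ x : Fin 6, (a : Perm (Fin 6)) x = (b : Perm (Fin 6)) x) : a = b :=
  Subtype.ext (Equiv.ext h)

theorem v_apply (i : Fin 8) (x : Fin 6) : (v i : Perm (Fin 6)) x = vv i x := rfl
theorem q_apply (i : Fin 9) (x : Fin 6) : (q i : Perm (Fin 6)) x = pp i x := rfl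

theorem v_inv_apply (i : Fin 8) (x : Fin 6) : ((v i)⁻¹ : Perm (Fin 6)) x = vv (iv i) x := rfl

theorem vinj : Function.Injective v := by
  have h : ∀ i j : Fin 8, (∀ x, vv i x = vv j x) → i = j := by decide
  intro i j hij
  exact h i j fun x => by rw [← v_apply, ← v_apply, hij]

theorem qinj : Function.Injective q := by
  have h : ∀ i j : Fin 9, (∀ x, pp i x = pp j x) → i = j := by decide
  intro i j hij
  exact h i j fun x => by rw [← q_apply, ← q_apply, hij]

theorem exV : ∃ P : Sylow 2 S6, ∀ y, y ∈ P ↔ ∃ i, v i = y := by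
  refine mkSylow 2 3 8 v (by norm_num) vinj ⟨0, ?_⟩ ?_ ?_ 45 (by norm_num) (by norm_num)
  · apply ext_S6
    have : ∀ x, vv 0 x = x := by decide
    exact this
  · have : ∀ i j, ∃ k, ∀ x, vv i (vv j x) = vv k x := by decide
    intro i j
    obtain ⟨k, hk⟩ := this i j
    exact ⟨k, ext_S6 hk⟩
  · intro i
    exact ⟨iv i, ext_S6 (iv1 i)⟩

theorem exP : ∃ P : Sylow 3 S6, ∀ y, y ∈ P ↔ ∃ i, q i = y := by
  refine mkSylow 3 2 9 q (by norm_num) qinj ⟨0, ?_⟩ ?_ ?_ 40 (by norm_num) (by norm_num)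
  · apply ext_S6
    have : ∀ x, pp 0 x = x := by decide
    exact this
  · have : ∀ i j, ∃ k, ∀ x, pp i (pp j x) = pp k x := by decide +kernel
    intro i j
    obtain ⟨k, hk⟩ := this i j
    exact ⟨k, ext_S6 hk⟩
  · intro i
    exact ⟨ip i, ext_S6 (ip1 i)⟩

/-! ### The invariant -/

/-- the set `{0,1,2}` -/
def A0 : Finset (Fin 6) := {0, 1, 2}

/-- the invariant -/
def kk (y : S6) : ℕ := #(A0.image (y : Perm (Fin 6)) ∩ A0)

theorem A0_T3 : A0 ∈ T3 := by
  rw [mem_T3]
  rfl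

theorem kk_le (y : S6) : kk y ≤ 3 := (card_le_card inter_subset_right).trans (le_of_eq rfl)

theorem q_image (i : Fin 9) : A0.image (q i : Perm (Fin 6)) = A0 := by
  change A0.image (pp i) = A0
  revert i
  decide

theorem image_mul (a b : Perm (Fin 6)) (A : Finset (Fin 6)) :
    A.image (a * b : Perm (Fin 6)) = (A.image b).image a := by
  rw [image_image]
  rfl

/-- `k` is constant on double cosets. -/
theorem kk_mul (i j : Fin 9) (x : S6) : kk (q i * x * q j) = kk x := by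
  unfold kk
  rw [Subgroup.coe_mul, Subgroup.coe_mul, image_mul, q_image, image_mul]
  conv_lhs => rw [← q_image i]
  rw [q_image, ← q_image i, ← image_inter _ _ (Equiv.injective _),
    card_image_of_injective _ (Equiv.injective _), q_image]

theorem kk_aux (y : Perm (Fin 6)) (h : (∀ x ∈ A0, (y x ∈ A0 ↔ y 0 ∈ A0)) ∨
    (∀ x ∉ A0, (y x ∈ A0 ↔ y 3 ∈ A0))) : #(A0.image y ∩ A0) = 0 ∨ #(A0.image y ∩ A0) = 3 := by
  rcases h with h | h
  · by_cases h0 : y 0 ∈ A0
    · right
      have : A0.image y ⊆ A0 := by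
        intro a ha
        rw [mem_image] at ha
        obtain ⟨x, hx, rfl⟩ := ha
        exact (h x hx).2 h0
      rw [inter_eq_left.2 this, card_image_of_injective _ y.injective]
      rfl
    · left
      rw [card_eq_zero, ← disjoint_iff_inter_eq_empty, disjoint_left]
      intro a ha
      rw [mem_image] at ha
      obtain ⟨x, hx, rfl⟩ := ha
      exact fun h1 => h0 ((h x hx).1 h1)
  · by_cases h0 : y 3 ∈ A0
    · left
      have h1 : A0ᶜ.image y ⊆ A0 := by
        intro a ha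
        rw [mem_image] at ha
        obtain ⟨x, hx, rfl⟩ := ha
        exact (h x (mem_compl.1 hx)).2 h0
      have h2 : A0ᶜ.image y = A0 := by
        apply eq_of_subset_of_card_le h1
        rw [card_image_of_injective _ y.injective]
        decide
      rw [card_eq_zero, ← disjoint_iff_inter_eq_empty]
      have h3 : Disjoint (A0.image y) (A0ᶜ.image y) :=
        (disjoint_image y.injective).2 disjoint_compl_right
      rwa [h2] at h3
    · right
      have h1 : A0 ⊆ A0.image y := by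
        intro a ha
        rw [mem_image]
        refine ⟨y.symm a, ?_, y.apply_symm_apply a⟩
        by_contra h2
        exact h0 ((h _ h2).1 (by rwa [y.apply_symm_apply]))
      rw [inter_eq_right.2 h1]
      rfl

/-- bad elements -/
theorem kk_bad (y : S6) (i j : Fin 9) (hi : q i ≠ 1) (h : y * q i * y⁻¹ = q j) :
    kk y = 0 ∨ kk y = 3 := by
  have hi0 : i ≠ 0 := by
    rintro rfl
    apply hi
    apply ext_S6
    have : ∀ x, pp 0 x = x := by decide
    exact this
  have hc : ∀ x, (y : Perm (Fin 6)) (pp i x) = pp j ((y : Perm (Fin 6)) x) := by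
    intro x
    have h1 : y * q i = q j * y := by rw [← h, inv_mul_cancel_right]
    have h2 := congrArg (fun z : S6 => (z : Perm (Fin 6)) x) h1
    exact h2
  have hA : ∀ (j : Fin 9) (a : Fin 6), pp j a ∈ A0 ↔ a ∈ A0 := by decide
  have hs : ∀ x, ((y : Perm (Fin 6)) (pp i x) ∈ A0 ↔ (y : Perm (Fin 6)) x ∈ A0) := by
    intro x
    rw [hc, hA]
  have hD : ∀ i : Fin 9, i ≠ 0 → (pp i 0 = 1 ∧ pp i 1 = 2) ∨ (pp i 0 = 2 ∧ pp i 2 = 1) ∨
      (pp i 3 = 4 ∧ pp i 4 = 5) ∨ (pp i 3 = 5 ∧ pp i 5 = 4) := by decide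
  apply kk_aux
  have e0 : ∀ P : Fin 6 → Prop, P 0 → P 1 → P 2 → ∀ x ∈ A0, P x := by
    intro P h0 h1 h2 x hx
    simp only [A0, mem_insert, mem_singleton] at hx
    rcases hx with rfl | rfl | rfl <;> assumption
  have e1 : ∀ P : Fin 6 → Prop, P 3 → P 4 → P 5 → ∀ x ∉ A0, P x := by
    intro P h3 h4 h5 x hx
    have : ∀ x : Fin 6, x ∉ A0 → x = 3 ∨ x = 4 ∨ x = 5 := by decide
    rcases this x hx with rfl | rfl | rfl <;> assumption
  rcases hD i hi0 with ⟨h1, h2⟩ | ⟨h1, h2⟩ | ⟨h1, h2⟩ | ⟨h1, h2⟩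
  · left
    have a1 := hs 0
    have a2 := hs 1
    rw [h1] at a1
    rw [h2] at a2
    exact e0 _ Iff.rfl a1 (a2.trans a1)
  · left
    have a1 := hs 0
    have a2 := hs 2
    rw [h1] at a1
    rw [h2] at a2
    exact e0 _ Iff.rfl (a2.trans a1) a1
  · right
    have a1 := hs 3
    have a2 := hs 4
    rw [h1] at a1
    rw [h2] at a2
    exact e1 _ Iff.rfl a1 (a2.trans a1)
  · right
    have a1 := hs 3
    have a2 := hs 5
    rw [h1] at a1
    rw [h2] at a2
    exact e1 _ Iff.rfl (a2.trans a1) a1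

/-- the invariant of a product -/
theorem kk_prod (s g t : S6) (i j : Fin 8) :
    kk (s * v i * g * v j * t) = #((A0.image (t : Perm (Fin 6))).image (vv j) ∩
      ((A0.image ((s : Perm (Fin 6))⁻¹ : Perm (Fin 6))).image (vv (iv i))).image
        ((g : Perm (Fin 6))⁻¹ : Perm (Fin 6))) := by
  unfold kk
  set Z : Perm (Fin 6) := (g : Perm (Fin 6))⁻¹ * ((v i : Perm (Fin 6))⁻¹ * (s : Perm (Fin 6))⁻¹) with hZ
  have e1 : (A0.image (t : Perm (Fin 6))).image (vv j) =
      (A0.image ((s * v i * g * v j * t : S6) : Perm (Fin 6))).image Z := by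
    rw [← image_mul, hZ]
    have : (A0.image (t : Perm (Fin 6))).image (vv j) = A0.image ((v j : Perm (Fin 6)) * (t : Perm (Fin 6)) :
      Perm (Fin 6)) := (image_mul (v j : Perm (Fin 6)) (t : Perm (Fin 6)) A0).symm
    rw [this]
    congr 2
    simp only [Subgroup.coe_mul]
    group
  have e2 : ((A0.image ((s : Perm (Fin 6))⁻¹ : Perm (Fin 6))).image (vv (iv i))).image
        ((g : Perm (Fin 6))⁻¹ : Perm (Fin 6)) = A0.image Z := by
    rw [hZ, image_mul, image_mul]
    rfl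
  rw [e1, e2, ← image_inter _ _ Z.injective, card_image_of_injective _ Z.injective]

/-- transfer of the counts -/
theorem transfer (Q : S6 → Prop) (R : Fin 8 × Fin 8 → Prop) [DecidablePred R] (u : S6)
    (w : S6) (F : Fin 8 × Fin 8 → S6) (h : ∀ n, Q n → ∃ p, R p ∧ u * n * w = F p) :
    Nat.card {n // Q n} ≤ #{p | R p} := by
  choose! f hf using h
  have h1 : Nat.card {n // Q n} ≤ Nat.card {p // R p} := by
    apply Nat.card_le_card_of_injective
      (f := fun n : {n // Q n} => (⟨f n.1, (hf n.1 n.2).1⟩ : {p // R p}))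
    intro n n' hnn
    have h2 : f n.1 = f n'.1 := congrArg Subtype.val hnn
    apply Subtype.ext
    have h3 := (hf n.1 n.2).2
    rw [h2, ← (hf n'.1 n'.2).2] at h3
    exact mul_left_cancel (mul_right_cancel h3)
  have h2 : Nat.card {p // R p} = #{p | R p} := by
    rw [Nat.card_eq_fintype_card, Fintype.card_subtype]
  exact h1.trans h2.le

/-- The counts for `A_6`, `p = 3`. -/
theorem pC63 : StC63 := by
  intro V V' n0 hreg P c x
  obtain ⟨V0, hV0⟩ := exV
  obtain ⟨P0, hP0⟩ := exP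
  obtain ⟨a, ha⟩ := conjSylow 2 V0 V'
  obtain ⟨b, hb⟩ := conjSylow 2 V0 V
  obtain ⟨u, hu⟩ := conjSylow 3 P0 P
  -- the data
  set s : S6 := u * c * a⁻¹ with hs
  set g : S6 := a * n0 * b⁻¹ with hg
  set t : S6 := b * u⁻¹ with ht
  have hF : ∀ n, InD (V' : Subgroup S6) V n0 n → ∃ i j : Fin 8,
      u * (c * n) * u⁻¹ = s * v i * g * v j * t := by
    rintro n ⟨α, hα, β, hβ, rfl⟩
    obtain ⟨i, hi⟩ := (hV0 _).1 ((ha α).1 hα)
    obtain ⟨j, hj⟩ := (hV0 _).1 ((hb β).1 hβ)
    refine ⟨i, j, ?_⟩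
    rw [hi, hj, hs, hg, ht]
    group
  have hr : ∀ i j : Fin 8, (∀ y : Fin 6, ((g : Perm (Fin 6))⁻¹ : Perm (Fin 6)) (vv i y) =
      vv j (((g : Perm (Fin 6))⁻¹ : Perm (Fin 6)) y)) → i = 0 := by
    intro i j hij
    have h1 : g⁻¹ * v i = v j * g⁻¹ := ext_S6 hij
    have h2 : g * v j * g⁻¹ = v i := by
      rw [mul_assoc, ← h1, mul_inv_cancel_left]
    have h3 : b⁻¹ * v j * b ∈ V := by
      rw [show (b⁻¹ * v j * b ∈ V ↔ b * (b⁻¹ * v j * b) * b⁻¹ ∈ V0) from hb _, hV0]
      exact ⟨j, by group⟩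
    have h4 : n0 * (b⁻¹ * v j * b) * n0⁻¹ ∈ V' := by
      rw [show (n0 * (b⁻¹ * v j * b) * n0⁻¹ ∈ V' ↔ a * (n0 * (b⁻¹ * v j * b) * n0⁻¹) * a⁻¹ ∈ V0)
        from ha _, hV0]
      refine ⟨i, ?_⟩
      rw [← h2, hg]
      group
    have h5 := hreg _ h3 h4
    have h6 : v j = 1 := by
      have : b⁻¹ * v j * b = b⁻¹ * 1 * b := by rw [h5]; group
      exact mul_left_cancel (mul_right_cancel this)
    have h7 : v i = v 0 := by
      rw [← h2, h6, mul_one, mul_inv_cancel]
      apply ext_S6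
      have : ∀ x, x = vv 0 x := by decide
      exact this
    exact vinj h7
  have hT : ∀ y : Perm (Fin 6), A0.image y ∈ T3 := by
    intro y
    rw [mem_T3, card_image_of_injective _ y.injective]
    rfl
  obtain ⟨K0, K1, K2⟩ := key ((g : Perm (Fin 6))⁻¹) hr (A0.image (t : Perm (Fin 6)))
    (A0.image ((s : Perm (Fin 6))⁻¹ : Perm (Fin 6))) (hT _) (hT _)
  simp only [← kk_prod s g t] at K0 K1 K2
  have hbad : ∀ n : S6, Bad (P : Subgroup S6) (c * n) →
      kk (u * (c * n) * u⁻¹) = 0 ∨ kk (u * (c * n) * u⁻¹) = 3 := by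
    rintro n ⟨y, hy, hy1, hy2⟩
    obtain ⟨i, hi⟩ := (hP0 _).1 ((hu y).1 hy)
    obtain ⟨j, hj⟩ := (hP0 _).1 ((hu _).1 hy2)
    apply kk_bad _ i j
    · rw [hi]
      intro h
      apply hy1
      have : u * y * u⁻¹ = u * 1 * u⁻¹ := by rw [h]; group
      exact mul_left_cancel (mul_right_cancel this)
    · rw [hi, hj]
      group
  have hdc : ∀ n : S6, (∃ α ∈ P, ∃ β ∈ P, c * n = α * x * β) →
      kk (u * (c * n) * u⁻¹) = kk (u * x * u⁻¹) := by
    rintro n ⟨α, hα, β, hβ, h⟩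
    obtain ⟨i, hi⟩ := (hP0 _).1 ((hu α).1 hα)
    obtain ⟨j, hj⟩ := (hP0 _).1 ((hu β).1 hβ)
    rw [← kk_mul i j (u * x * u⁻¹), hi, hj, h]
    congr 1
    group
  constructor
  · have h1 := transfer (fun n => InD (V' : Subgroup S6) V n0 n ∧ Bad (P : Subgroup S6) (c * n))
      (fun p => kk (s * v p.1 * g * v p.2 * t) = 0 ∨ kk (s * v p.1 * g * v p.2 * t) = 3)
      (u * c) u⁻¹ (fun p => s * v p.1 * g * v p.2 * t) (by
        rintro n ⟨hn, hn2⟩
        obtain ⟨i, j, hij⟩ := hF n hn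
        refine ⟨(i, j), ?_, ?_⟩
        · have := hbad n hn2
          rwa [hij] at this
        · rw [← hij]
          group)
    exact h1.trans (K0.trans (by norm_num))
  · by_cases hx : kk (u * x * u⁻¹) = 2
    · have h1 := transfer (fun n => InD (V' : Subgroup S6) V n0 n ∧
          (Bad (P : Subgroup S6) (c * n) ∨ ∃ a ∈ P, ∃ b ∈ P, c * n = a * x * b))
        (fun p => ¬ kk (s * v p.1 * g * v p.2 * t) = 1)
        (u * c) u⁻¹ (fun p => s * v p.1 * g * v p.2 * t) (by
          rintro n ⟨hn, hn2⟩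
          obtain ⟨i, j, hij⟩ := hF n hn
          refine ⟨(i, j), ?_, ?_⟩
          · change ¬ kk (s * v i * g * v j * t) = 1
            rw [← hij]
            rcases hn2 with hn2 | hn2
            · rcases hbad n hn2 with h | h <;> omega
            · rw [hdc n hn2]
              omega
          · rw [← hij]
            group)
      have h2 := card_filter_add_card_filter_not (s := (univ : Finset (Fin 8 × Fin 8)))
        (fun p => kk (s * v p.1 * g * v p.2 * t) = 1)
      have h3 : #(univ : Finset (Fin 8 × Fin 8)) = 64 := by simp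
      refine h1.trans ?_
      omega
    · have h1 := transfer (fun n => InD (V' : Subgroup S6) V n0 n ∧
          (Bad (P : Subgroup S6) (c * n) ∨ ∃ a ∈ P, ∃ b ∈ P, c * n = a * x * b))
        (fun p => ¬ kk (s * v p.1 * g * v p.2 * t) = 2)
        (u * c) u⁻¹ (fun p => s * v p.1 * g * v p.2 * t) (by
          rintro n ⟨hn, hn2⟩
          obtain ⟨i, j, hij⟩ := hF n hn
          refine ⟨(i, j), ?_, ?_⟩
          · change ¬ kk (s * v i * g * v j * t) = 2
            rw [← hij]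
            rcases hn2 with hn2 | hn2
            · rcases hbad n hn2 with h | h <;> omega
            · rw [hdc n hn2]
              omega
          · rw [← hij]
            group)
      have h2 := card_filter_add_card_filter_not (s := (univ : Finset (Fin 8 × Fin 8)))
        (fun p => kk (s * v p.1 * g * v p.2 * t) = 2)
      have h3 : #(univ : Finset (Fin 8 × Fin 8)) = 64 := by simp
      refine h1.trans ?_
      omega

end Pool.Agent.Helper47.SA
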